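import Mathlib
import Pool.Agent.Y248.FB.Stm

/-! # Project FB: scaling -/

set_option autoImplicit false

namespace Pool.Agent.Y86.FB

open MeasureTheory Set Metric Complex Filter
open scoped ENNReal RealInnerProductSpace Topology FourierTransform
open Pool.Agent.H789R2.FR (E sg T)
open Pool.Agent.Y248.FB

/-- dilation as an equivalence -/
noncomputable def dil (n : ℕ) {c : ℝ} (hc : c ≠ 0) : E n ≃L[ℝ] E n :=
  ContinuousLinearEquiv.smulLeft (Units.mk0 c hc)

theorem dil_apply {n : ℕ} {c : ℝ} (hc : c ≠ 0) (x : E n) : dil n hc x = c • x := rfl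

theorem ml_scale {n : ℕ} (δ R : ℝ) {c : ℝ} (hc : 0 < c) (ξ : E n) :
    ml δ R (c⁻¹ • ξ) = ml δ (c * R) ξ := by
  unfold ml
  rw [norm_smul, Real.norm_eq_abs, abs_of_pos (inv_pos.2 hc)]
  have h1 : c⁻¹ * ‖ξ‖ < R ↔ ‖ξ‖ < c * R := by
    rw [inv_mul_lt_iff₀ hc]
  by_cases h : ‖ξ‖ < c * R
  · rw [if_pos h, if_pos (h1.2 h)]
    congr 2
    rw [mul_pow, mul_pow, inv_pow]
    field_simp
  · rw [if_neg h, if_neg (fun h' => h (h1.1 h'))]

theorem fourier_scale {n : ℕ} (f : E n → ℂ) {c : ℝ} (hc : 0 < c) (η : E n) :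
    𝓕 (fun y : E n => f (c • y)) η = ((c ^ n)⁻¹ : ℝ) • 𝓕 f (c⁻¹ • η) := by
  rw [Real.fourier_eq', Real.fourier_eq']
  have h1 : (fun y : E n => cexp (((-2 * Real.pi * ⟪y, η⟫ : ℝ) : ℂ) * I) • f (c • y)) =
      fun y : E n => (fun z : E n => cexp (((-2 * Real.pi * ⟪z, c⁻¹ • η⟫ : ℝ) : ℂ) * I) • f z)
        (c • y) := by
    funext y
    have h2 : ⟪c • y, c⁻¹ • η⟫ = ⟪y, η⟫ := by
      rw [real_inner_smul_left, real_inner_smul_right]
      field_simp
    simp only [h2]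
  have h3 := Measure.integral_comp_smul (volume : Measure (E n))
    (fun z : E n => cexp (((-2 * Real.pi * ⟪z, c⁻¹ • η⟫ : ℝ) : ℂ) * I) • f z) c
  rw [abs_of_pos (by positivity), finrank_euclideanSpace, Fintype.card_fin] at h3
  rw [h1]
  exact h3

theorem Sm_scale {n : ℕ} (δ R : ℝ) (f : E n → ℂ) {c : ℝ} (hc : 0 < c) (x : E n) :
    Sm δ R f x = Sm δ (c * R) (fun y => f (c • y)) (c⁻¹ • x) := by
  unfold Sm
  have h1 : (fun ξ : E n => ml δ (c * R) ξ * 𝓕 (fun y : E n => f (c • y)) ξ *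
      cexp (((2 * Real.pi * ⟪c⁻¹ • x, ξ⟫ : ℝ) : ℂ) * I)) =
      fun ξ : E n => ((c ^ n)⁻¹ : ℝ) • (fun z : E n => ml δ R z * 𝓕 f z *
        cexp (((2 * Real.pi * ⟪x, z⟫ : ℝ) : ℂ) * I)) (c⁻¹ • ξ) := by
    funext ξ
    simp only
    rw [ml_scale δ R hc, fourier_scale f hc, real_inner_smul_left, real_inner_smul_right,
      Complex.real_smul, Complex.real_smul]
    ring
  have h3 := Measure.integral_comp_smul (volume : Measure (E n))
    (fun z : E n => ml δ R z * 𝓕 f z * cexp (((2 * Real.pi * ⟪x, z⟫ : ℝ) : ℂ) * I)) c⁻¹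
  rw [h1, integral_smul, h3, smul_smul]
  have h2 : ((c ^ n)⁻¹ : ℝ) * |(c⁻¹ ^ Module.finrank ℝ (E n))⁻¹| = 1 := by
    rw [abs_of_pos (by positivity), finrank_euclideanSpace, Fintype.card_fin, inv_pow, inv_inv,
      inv_mul_cancel₀ (by positivity)]
  rw [h2, one_smul]

/-- the scaled measure -/
noncomputable def msc {n : ℕ} (μ : Measure (E n)) (α c : ℝ) (X : Set (E n)) : Measure (E n) :=
  ENNReal.ofReal (c ^ (-α)) • (μ.restrict X).map (fun x : E n => c⁻¹ • x)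

theorem msc_dim {n : ℕ} {μ : Measure (E n)} {α c : ℝ} (hμ : Dim α μ) (hc : 1 ≤ c)
    (X : Set (E n)) : Dim α (msc μ α c X) := by
  have hc0 : 0 < c := lt_of_lt_of_le one_pos hc
  intro z r hr
  have hm : Measurable (fun x : E n => c⁻¹ • x) := measurable_const_smul _
  rw [msc, Measure.smul_apply, Measure.map_apply hm measurableSet_closedBall, smul_eq_mul]
  have h1 : (μ.restrict X) ((fun x : E n => c⁻¹ • x) ⁻¹' closedBall z r) ≤
      ENNReal.ofReal ((c * r) ^ α) := by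
    refine (Measure.restrict_apply_le _ _).trans ?_
    refine (measure_mono ?_).trans (hμ (c • z) (c * r) (by nlinarith))
    intro x hx
    rw [mem_preimage, mem_closedBall, dist_eq_norm] at hx
    rw [mem_closedBall, dist_eq_norm]
    have h2 : x - c • z = c • (c⁻¹ • x - z) := by
      rw [smul_sub, smul_smul, mul_inv_cancel₀ hc0.ne', one_smul]
    rw [h2, norm_smul, Real.norm_eq_abs, abs_of_pos hc0]
    exact mul_le_mul_of_nonneg_left hx hc0.le
  refine (mul_le_mul_right h1 _).trans ?_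
  rw [← ENNReal.ofReal_mul (by positivity), Real.mul_rpow hc0.le (by linarith), ← mul_assoc,
    ← Real.rpow_add hc0, neg_add_cancel, Real.rpow_zero, one_mul]

theorem lint_scale {n : ℕ} (f : E n → ℂ) {c : ℝ} (hc : 0 < c) (p : ℝ) :
    ∫⁻ x : E n, ‖f (c • x)‖ₑ ^ p = ENNReal.ofReal ((c ^ n)⁻¹) * ∫⁻ x : E n, ‖f x‖ₑ ^ p := by
  have h1 : MeasurableEmbedding (fun x : E n => c • x) :=
    (Homeomorph.smulOfNeZero c hc.ne').measurableEmbedding
  rw [← h1.lintegral_map (fun x : E n => ‖f x‖ₑ ^ p), Measure.map_addHaar_smul _ hc.ne',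
    lintegral_smul_measure, smul_eq_mul, finrank_euclideanSpace, Fintype.card_fin,
    abs_of_pos (by positivity)]

theorem t_sc (n : ℕ) (_hn : 2 ≤ n) : S_SC n := by
  intro α p δ hα hαn hp hδ hUN
  obtain ⟨C, hC, hU⟩ := hUN
  -- the geometric factor
  set q : ℝ := (2 : ℝ) ^ (α - n) with hq
  have hq0 : 0 < q := by positivity
  have hq1 : q < 1 := Real.rpow_lt_one_of_one_lt_of_neg one_lt_two (by linarith)
  have hsum : Summable fun k : ℕ => C * q ^ (k + 1) := by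
    have h1 := (summable_geometric_of_lt_one hq0.le hq1).mul_left (C * q)
    refine h1.congr fun k => ?_
    ring
  refine ⟨∑' k : ℕ, C * q ^ (k + 1), hsum.tsum_pos (fun k => by positivity) 0 (by positivity), ?_⟩
  intro μ hμ R hR hR1 f
  let X : ℕ → Set (E n) := fun k => {x | 1 ≤ (2 : ℝ) ^ (k + 1) * R x ∧ (2 : ℝ) ^ (k + 1) * R x ≤ 2}
  have hcov : ⋃ k, X k = univ := by
    rw [eq_univ_iff_forall]
    intro x
    obtain ⟨h0, h1⟩ := hR1 x
    obtain ⟨k, hk1, hk2⟩ := exists_nat_pow_near (show 1 ≤ 1 / R x by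
      rw [le_div_iff₀ h0, one_mul]; exact h1) (one_lt_two)
    rw [le_div_iff₀ h0] at hk1
    rw [div_lt_iff₀ h0] at hk2
    refine mem_iUnion.2 ⟨k, hk2.le, ?_⟩
    rw [pow_succ]
    linarith
  -- one piece
  have hpiece : ∀ k : ℕ, ∫⁻ x in X k, ‖Sm δ (R x) (fun y => f y) x‖ₑ ^ p ∂μ ≤
      ENNReal.ofReal (C * q ^ (k + 1)) * ∫⁻ x, ‖f x‖ₑ ^ p := by
    intro k
    set c : ℝ := (2 : ℝ) ^ (k + 1) with hc
    have hc1 : 1 ≤ c := one_le_pow₀ one_le_two
    have hc0 : 0 < c := by positivity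
    let Rc : E n → ℝ := fun z => if 1 ≤ c * R (c • z) ∧ c * R (c • z) ≤ 2 then c * R (c • z) else 1
    have hmR : Measurable fun z : E n => c * R (c • z) :=
      (hR.comp (measurable_const_smul c)).const_mul c
    have hRc : Radii Rc := by
      refine ⟨Measurable.ite ?_ hmR measurable_const, fun z => ?_⟩
      · exact (measurableSet_le measurable_const hmR).inter (measurableSet_le hmR measurable_const)
      · change 1 ≤ (if 1 ≤ c * R (c • z) ∧ c * R (c • z) ≤ 2 then c * R (c • z) else 1) ∧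
          (if 1 ≤ c * R (c • z) ∧ c * R (c • z) ≤ 2 then c * R (c • z) else 1) ≤ 2
        split_ifs with h
        · exact h
        · exact ⟨le_rfl, one_le_two⟩
    let fc : SchwartzMap (E n) ℂ := SchwartzMap.compCLMOfContinuousLinearEquiv ℂ (dil n hc0.ne') f
    have hfc : (fun y => fc y) = fun y : E n => f (c • y) := by
      funext y
      rfl
    have h1 := hU (msc μ α c (X k)) (msc_dim hμ hc1 (X k)) Rc hRc fc
    have hem : MeasurableEmbedding (fun x : E n => c⁻¹ • x) :=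
      (Homeomorph.smulOfNeZero c⁻¹ (inv_ne_zero hc0.ne')).measurableEmbedding
    rw [msc, lintegral_smul_measure, hem.lintegral_map, smul_eq_mul] at h1
    have h2 : ∫⁻ x in X k, ‖Sm δ (Rc (c⁻¹ • x)) (fun y => fc y) (c⁻¹ • x)‖ₑ ^ p ∂μ =
        ∫⁻ x in X k, ‖Sm δ (R x) (fun y => f y) x‖ₑ ^ p ∂μ := by
      have hXm : MeasurableSet (X k) :=
        (measurableSet_le measurable_const (hR.const_mul _)).inter
          (measurableSet_le (hR.const_mul _) measurable_const)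
      refine setLIntegral_congr_fun hXm fun x hx => ?_
      have hx' : 1 ≤ c * R x ∧ c * R x ≤ 2 := hx
      have h3 : Rc (c⁻¹ • x) = c * R x := by
        have h4 : c • c⁻¹ • x = x := by rw [smul_smul, mul_inv_cancel₀ hc0.ne', one_smul]
        change (if 1 ≤ c * R (c • c⁻¹ • x) ∧ c * R (c • c⁻¹ • x) ≤ 2 then
          c * R (c • c⁻¹ • x) else 1) = c * R x
        rw [h4, if_pos hx']
      simp only [h3]
      rw [Sm_scale δ (R x) (fun y => f y) hc0 x, hfc]
    rw [h2] at h1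
    have h5 : ∫⁻ x, ‖fc x‖ₑ ^ p = ENNReal.ofReal ((c ^ n)⁻¹) * ∫⁻ x : E n, ‖f x‖ₑ ^ p :=
      lint_scale (fun y => f y) hc0 p
    rw [h5] at h1
    have h6 : ENNReal.ofReal (c ^ α) * ENNReal.ofReal (c ^ (-α)) = 1 := by
      rw [← ENNReal.ofReal_mul (by positivity), ← Real.rpow_add hc0, add_neg_cancel,
        Real.rpow_zero, ENNReal.ofReal_one]
    have h7 := mul_le_mul_right h1 (ENNReal.ofReal (c ^ α))
    rw [← mul_assoc, h6, one_mul] at h7
    refine h7.trans (le_of_eq ?_)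
    rw [← mul_assoc, ← mul_assoc, ← ENNReal.ofReal_mul (by positivity),
      ← ENNReal.ofReal_mul (by positivity)]
    congr 2
    have h8 : q ^ (k + 1) = c ^ α * (c ^ n)⁻¹ := by
      rw [hq, ← Real.rpow_natCast, ← Real.rpow_mul (by norm_num), hc, ← Real.rpow_natCast 2 (k + 1),
        ← Real.rpow_natCast _ n, ← Real.rpow_mul (by norm_num), ← Real.rpow_mul (by norm_num),
        ← Real.rpow_neg (by norm_num), ← Real.rpow_add (by norm_num)]
      congr 1
      ring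
    rw [h8]
    ring
  calc ∫⁻ x, ‖Sm δ (R x) (fun y => f y) x‖ₑ ^ p ∂μ
      = ∫⁻ x in ⋃ k, X k, ‖Sm δ (R x) (fun y => f y) x‖ₑ ^ p ∂μ := by
        rw [hcov, Measure.restrict_univ]
    _ ≤ ∑' k, ∫⁻ x in X k, ‖Sm δ (R x) (fun y => f y) x‖ₑ ^ p ∂μ := lintegral_iUnion_le _ _
    _ ≤ ∑' k, ENNReal.ofReal (C * q ^ (k + 1)) * ∫⁻ x, ‖f x‖ₑ ^ p := ENNReal.tsum_le_tsum hpiece
    _ = ENNReal.ofReal (∑' k : ℕ, C * q ^ (k + 1)) * ∫⁻ x, ‖f x‖ₑ ^ p := by
        rw [ENNReal.tsum_mul_right, ENNReal.ofReal_tsum_of_nonneg (fun k => by positivity) hsum]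

end Pool.Agent.Y86.FB
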